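import Pool.Agent.H77.WC.Stm

/-! Crew WC, part PRA (helper10): averages of periodic functions. -/

set_option autoImplicit false

namespace Pool.Agent.H10.WC

open Pool.Agent.H77.WC Filter Topology Set MeasureTheory

theorem intervalIntegrable_bdd {F : ℝ → ℂ} {K : ℝ} (hF : Measurable F) (hK : ∀ x, ‖F x‖ ≤ K)
    (a b : ℝ) : IntervalIntegrable F volume a b :=
  (intervalIntegrable_const (c := K) (μ := volume) (a := a) (b := b)).mono_fun'
    hF.aestronglyMeasurable (Filter.Eventually.of_forall hK)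

theorem pra : S_PRA := by
  intro F L K hL hF hK hper
  set I : ℂ := ∫ x in (0 : ℝ)..1, F x with hI
  have hint := intervalIntegrable_bdd hF hK
  have hK0 : 0 ≤ K := (norm_nonneg _).trans (hK 0)
  have hP : Function.Periodic F 1 := hper
  -- the main bound
  have key : ∀ y : ℝ, ‖(∫ x in (0 : ℝ)..y, F x) - (y : ℂ) * I‖ ≤ K + ‖I‖ := by
    intro y
    have h1 : ∫ x in (0 : ℝ)..((⌊y⌋ : ℤ) : ℝ), F x = (⌊y⌋ : ℂ) * I := by
      have := hP.intervalIntegral_add_zsmul_eq ⌊y⌋ 0 hint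
      simpa using this
    have h2 : (∫ x in (0 : ℝ)..((⌊y⌋ : ℤ) : ℝ), F x) + (∫ x in ((⌊y⌋ : ℤ) : ℝ)..y, F x) =
        ∫ x in (0 : ℝ)..y, F x := intervalIntegral.integral_add_adjacent_intervals (hint _ _) (hint _ _)
    have hf0 : 0 ≤ y - ⌊y⌋ := sub_nonneg.2 (Int.floor_le y)
    have hf1 : y - ⌊y⌋ ≤ 1 := by linarith [Int.lt_floor_add_one y]
    have h3 : ‖∫ x in ((⌊y⌋ : ℤ) : ℝ)..y, F x‖ ≤ K * |y - ⌊y⌋| :=
      intervalIntegral.norm_integral_le_of_norm_le_const (fun x _ => hK x)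
    rw [abs_of_nonneg hf0] at h3
    have h4 : (∫ x in (0 : ℝ)..y, F x) - (y : ℂ) * I =
        (∫ x in ((⌊y⌋ : ℤ) : ℝ)..y, F x) - ((y - ⌊y⌋ : ℝ) : ℂ) * I := by
      rw [← h2, h1]; push_cast; ring
    rw [h4]
    calc ‖(∫ x in ((⌊y⌋ : ℤ) : ℝ)..y, F x) - ((y - ⌊y⌋ : ℝ) : ℂ) * I‖
        ≤ ‖∫ x in ((⌊y⌋ : ℤ) : ℝ)..y, F x‖ + ‖((y - ⌊y⌋ : ℝ) : ℂ) * I‖ := norm_sub_le _ _
      _ ≤ K * (y - ⌊y⌋) + (y - ⌊y⌋) * ‖I‖ := by
          gcongr
          rw [norm_mul, Complex.norm_real, Real.norm_of_nonneg hf0]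
      _ ≤ K * 1 + 1 * ‖I‖ := by gcongr
      _ = K + ‖I‖ := by ring
  unfold MV
  rw [tendsto_iff_norm_sub_tendsto_zero]
  have hlim : Tendsto (fun T : ℝ => L * (K + ‖I‖) / T) atTop (𝓝 0) :=
    tendsto_const_nhds.div_atTop tendsto_id
  refine squeeze_zero' (Eventually.of_forall fun _ => norm_nonneg _) ?_ hlim
  filter_upwards [eventually_gt_atTop (0 : ℝ)] with T hT
  have h5 : ∫ t in (0 : ℝ)..T, F (t / L) = (L : ℂ) * ∫ x in (0 : ℝ)..(T / L), F x := by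
    have := intervalIntegral.integral_comp_div (a := 0) (b := T) F hL.ne'
    rw [this, zero_div, Complex.real_smul]
  have hT' : (T : ℂ) ≠ 0 := by exact_mod_cast hT.ne'
  have hL' : (L : ℂ) ≠ 0 := by exact_mod_cast hL.ne'
  have h6 : (∫ t in (0 : ℝ)..T, F (t / L)) / (T : ℂ) - I =
      (L : ℂ) * ((∫ x in (0 : ℝ)..(T / L), F x) - ((T / L : ℝ) : ℂ) * I) / (T : ℂ) := by
    rw [h5]; push_cast; field_simp
  rw [h6, norm_div, norm_mul, Complex.norm_real, Complex.norm_real, Real.norm_of_nonneg hL.le,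
    Real.norm_of_nonneg hT.le]
  gcongr
  exact key _

end Pool.Agent.H10.WC
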