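import Pool.Agent.H77.WC.Stm

/-! Crew WC, part TRA (helper10): from mean values on the line to logarithmic densities. -/

set_option autoImplicit false

namespace Pool.Agent.H10.WC

open Pool.Agent.H77.WC Filter Topology Set MeasureTheory

theorem tra_intervalIntegrable_bdd {F : ℝ → ℂ} {K : ℝ} (hF : Measurable F) (hK : ∀ x, ‖F x‖ ≤ K)
    (a b : ℝ) : IntervalIntegrable F volume a b :=
  (intervalIntegrable_const (c := K) (μ := volume) (a := a) (b := b)).mono_fun'
    hF.aestronglyMeasurable (Filter.Eventually.of_forall hK)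

open Classical in
/-- the indicator function on the line -/
noncomputable def uc (C : Set ℕ) (t : ℝ) : ℂ := if ⌊Real.exp t⌋₊ ∈ C then 1 else 0

theorem uc_meas (C : Set ℕ) : Measurable (uc C) := by
  classical
  unfold uc
  refine Measurable.ite ?_ measurable_const measurable_const
  exact (Nat.measurable_floor.comp Real.measurable_exp) (MeasurableSet.of_discrete (s := C))

theorem uc_bd (C : Set ℕ) (t : ℝ) : ‖uc C t‖ ≤ 1 := by
  unfold uc; split_ifs <;> simp

open Classical in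
theorem int_step (C : Set ℕ) (k : ℕ) (hk : 1 ≤ k) :
    ∫ t in Real.log k..Real.log ((k : ℝ) + 1), uc C t =
      ((if k ∈ C then Real.log ((k : ℝ) + 1) - Real.log k else 0 : ℝ) : ℂ) := by
  have hk0 : (0 : ℝ) < k := by exact_mod_cast hk
  have hle : Real.log k ≤ Real.log ((k : ℝ) + 1) := Real.log_le_log hk0 (by linarith)
  have hc : ∀ t ∈ Ioo (Real.log k) (Real.log ((k : ℝ) + 1)),
      uc C t = (fun _ : ℝ => if k ∈ C then (1 : ℂ) else 0) t := by
    intro t ht
    have h1 : (k : ℝ) < Real.exp t := (Real.log_lt_iff_lt_exp hk0).1 ht.1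
    have h2 : Real.exp t < (k : ℝ) + 1 := (Real.lt_log_iff_exp_lt (by linarith)).1 ht.2
    have h3 : ⌊Real.exp t⌋₊ = k := (Nat.floor_eq_iff (Real.exp_pos t).le).2 ⟨h1.le, h2⟩
    simp only [uc, h3]
  rw [intervalIntegral.integral_of_le hle, integral_Ioc_eq_integral_Ioo,
    setIntegral_congr_fun measurableSet_Ioo hc, ← integral_Ioc_eq_integral_Ioo,
    ← intervalIntegral.integral_of_le hle, intervalIntegral.integral_const]
  split_ifs <;> simp

open Classical in
/-- the integral as a sum -/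
noncomputable def J (C : Set ℕ) (x : ℕ) : ℝ :=
  ∑ k ∈ Finset.Icc 1 x, if k ∈ C then Real.log ((k : ℝ) + 1) - Real.log k else 0

theorem int_J (C : Set ℕ) (x : ℕ) :
    ∫ t in (0 : ℝ)..Real.log ((x : ℝ) + 1), uc C t = (J C x : ℂ) := by
  induction x with
  | zero => simp [J]
  | succ x ih =>
    have h1 := intervalIntegral.integral_add_adjacent_intervals
      (tra_intervalIntegrable_bdd (uc_meas C) (uc_bd C) 0 (Real.log ((x : ℝ) + 1)))
      (tra_intervalIntegrable_bdd (uc_meas C) (uc_bd C) (Real.log ((x : ℝ) + 1))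
        (Real.log (((x + 1 : ℕ) : ℝ) + 1)))
    have h2 := int_step C (x + 1) (by omega)
    have h3 : J C (x + 1) = J C x + _ := Finset.sum_Icc_succ_top (by omega) _
    rw [h3, ← h1, ih]
    push_cast at h2 ⊢
    rw [h2]

theorem hs_J (C : Set ℕ) (x : ℕ) : 0 ≤ hs C x - J C x ∧ hs C x - J C x ≤ 1 - 1 / ((x : ℝ) + 1) := by
  classical
  have hhs : ∀ y, hs C y = ∑ k ∈ Finset.Icc 1 y, if k ∈ C then (1 : ℝ) / k else 0 := by
    intro y; unfold hs; rw [Finset.sum_filter]
  induction x with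
  | zero => simp [J, hhs]
  | succ x ih =>
    have h3 : J C (x + 1) = J C x + _ := Finset.sum_Icc_succ_top (by omega) _
    have h4 : hs C (x + 1) = hs C x + (if (x + 1) ∈ C then (1 : ℝ) / ((x + 1 : ℕ) : ℝ) else 0) := by
      rw [hhs, hhs, Finset.sum_Icc_succ_top (by omega)]
    have hx0 : (0 : ℝ) < (x : ℝ) + 1 := by positivity
    have hx1 : (0 : ℝ) < (x : ℝ) + 1 + 1 := by positivity
    have h5 : Real.log ((x : ℝ) + 1 + 1) - Real.log ((x : ℝ) + 1) =
        Real.log (((x : ℝ) + 1 + 1) / ((x : ℝ) + 1)) := (Real.log_div hx1.ne' hx0.ne').symm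
    have h6 : Real.log (((x : ℝ) + 1 + 1) / ((x : ℝ) + 1)) ≤ 1 / ((x : ℝ) + 1) := by
      have := Real.log_le_sub_one_of_pos (div_pos hx1 hx0)
      have h7 : ((x : ℝ) + 1 + 1) / ((x : ℝ) + 1) - 1 = 1 / ((x : ℝ) + 1) := by field_simp; ring
      linarith
    have h8 : 1 / ((x : ℝ) + 1 + 1) ≤ Real.log (((x : ℝ) + 1 + 1) / ((x : ℝ) + 1)) := by
      have := Real.one_sub_inv_le_log_of_pos (div_pos hx1 hx0)
      have h9 : 1 - (((x : ℝ) + 1 + 1) / ((x : ℝ) + 1))⁻¹ = 1 / ((x : ℝ) + 1 + 1) := by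
        field_simp; ring
      linarith
    rw [h3, h4]
    push_cast
    have h10 : 1 / ((x : ℝ) + 1 + 1) ≤ 1 / ((x : ℝ) + 1) := one_div_le_one_div_of_le hx0 (by linarith)
    split_ifs <;> constructor <;> linarith [ih.1, ih.2]

theorem tra : S_TRA := by
  classical
  intro C g t0 d hg hbd hgC hMV
  set t1 : ℝ := max t0 0 with ht1
  have ht1' : 0 ≤ t1 := le_max_right _ _
  have hgi := tra_intervalIntegrable_bdd hg hbd
  have hui := tra_intervalIntegrable_bdd (uc_meas C) (uc_bd C)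
  have hlog : Tendsto (fun x : ℕ => Real.log (x : ℝ)) atTop atTop :=
    Real.tendsto_log_atTop.comp tendsto_natCast_atTop_atTop
  have h1 : Tendsto (fun x : ℕ => (∫ t in (0 : ℝ)..Real.log x, g t) / ((Real.log x : ℝ) : ℂ)) atTop
      (𝓝 (d : ℂ)) := hMV.comp hlog
  -- the bound
  have hb : ∀ᶠ x : ℕ in atTop, ‖((hs C x : ℝ) : ℂ) - ∫ t in (0 : ℝ)..Real.log x, g t‖ ≤ 2 + 2 * t1 := by
    filter_upwards [hlog.eventually_ge_atTop t1, eventually_ge_atTop 1] with x hx hx1
    have hx0 : (0 : ℝ) < x := by exact_mod_cast hx1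
    have e1 := intervalIntegral.integral_add_adjacent_intervals (hgi 0 t1) (hgi t1 (Real.log x))
    have e2 := intervalIntegral.integral_add_adjacent_intervals (hui 0 t1) (hui t1 (Real.log x))
    have e3 := intervalIntegral.integral_add_adjacent_intervals (hui 0 (Real.log x))
      (hui (Real.log x) (Real.log ((x : ℝ) + 1)))
    have e4 : ∫ t in t1..Real.log x, g t = ∫ t in t1..Real.log x, uc C t := by
      apply intervalIntegral.integral_congr
      intro t ht
      rw [uIcc_of_le hx] at ht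
      exact hgC t ((le_max_left _ _).trans ht.1)
    rw [int_J] at e3
    have e5 : ((hs C x : ℝ) : ℂ) - ∫ t in (0 : ℝ)..Real.log x, g t =
        ((hs C x - J C x : ℝ) : ℂ) + (∫ t in Real.log x..Real.log ((x : ℝ) + 1), uc C t) +
        ((∫ t in (0 : ℝ)..t1, uc C t) - ∫ t in (0 : ℝ)..t1, g t) := by
      rw [← e1, e4]
      push_cast
      rw [← e3, ← e2]
      ring
    rw [e5]
    have b1 : ‖((hs C x - J C x : ℝ) : ℂ)‖ ≤ 1 := by
      rw [Complex.norm_real, Real.norm_eq_abs, abs_of_nonneg (hs_J C x).1]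
      have : 0 ≤ 1 / ((x : ℝ) + 1) := by positivity
      linarith [(hs_J C x).2]
    have b2 : ‖∫ t in Real.log x..Real.log ((x : ℝ) + 1), uc C t‖ ≤ 1 := by
      have h2 : ‖∫ t in Real.log x..Real.log ((x : ℝ) + 1), uc C t‖ ≤
          1 * |Real.log ((x : ℝ) + 1) - Real.log x| :=
        intervalIntegral.norm_integral_le_of_norm_le_const (fun t _ => uc_bd C t)
      have h3 : Real.log x ≤ Real.log ((x : ℝ) + 1) := Real.log_le_log hx0 (by linarith)
      have h4 : Real.log ((x : ℝ) + 1) - Real.log x ≤ 1 := by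
        rw [← Real.log_div (by positivity) hx0.ne']
        have h5 := Real.log_le_sub_one_of_pos (div_pos (by linarith : (0 : ℝ) < (x : ℝ) + 1) hx0)
        have h6 : ((x : ℝ) + 1) / x - 1 = 1 / x := by field_simp; ring
        have h7 : 1 / (x : ℝ) ≤ 1 := by
          rw [div_le_one hx0]; exact_mod_cast hx1
        linarith
      rw [abs_of_nonneg (by linarith)] at h2
      linarith
    have b3 : ‖∫ t in (0 : ℝ)..t1, uc C t‖ ≤ t1 := by
      have h2 : ‖∫ t in (0 : ℝ)..t1, uc C t‖ ≤ 1 * |t1 - 0| :=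
        intervalIntegral.norm_integral_le_of_norm_le_const (fun t _ => uc_bd C t)
      rw [sub_zero, abs_of_nonneg ht1'] at h2
      linarith
    have b4 : ‖∫ t in (0 : ℝ)..t1, g t‖ ≤ t1 := by
      have h2 : ‖∫ t in (0 : ℝ)..t1, g t‖ ≤ 1 * |t1 - 0| :=
        intervalIntegral.norm_integral_le_of_norm_le_const (fun t _ => hbd t)
      rw [sub_zero, abs_of_nonneg ht1'] at h2
      linarith
    calc _ ≤ ‖((hs C x - J C x : ℝ) : ℂ) + (∫ t in Real.log x..Real.log ((x : ℝ) + 1), uc C t)‖ +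
          ‖(∫ t in (0 : ℝ)..t1, uc C t) - ∫ t in (0 : ℝ)..t1, g t‖ := norm_add_le _ _
      _ ≤ (‖((hs C x - J C x : ℝ) : ℂ)‖ + ‖∫ t in Real.log x..Real.log ((x : ℝ) + 1), uc C t‖) +
          (‖∫ t in (0 : ℝ)..t1, uc C t‖ + ‖∫ t in (0 : ℝ)..t1, g t‖) :=
          add_le_add (norm_add_le _ _) (norm_sub_le _ _)
      _ ≤ 2 + 2 * t1 := by linarith
  have h2 : Tendsto (fun x : ℕ => (((hs C x : ℝ) : ℂ) - ∫ t in (0 : ℝ)..Real.log x, g t) /
      ((Real.log x : ℝ) : ℂ)) atTop (𝓝 0) := by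
    have hlim : Tendsto (fun x : ℕ => (2 + 2 * t1) / Real.log x) atTop (𝓝 0) :=
      tendsto_const_nhds.div_atTop hlog
    refine squeeze_zero_norm' ?_ hlim
    filter_upwards [hb, hlog.eventually_gt_atTop 0] with x hx hx1
    rw [norm_div, Complex.norm_real, Real.norm_of_nonneg hx1.le]
    gcongr
  have h3 : Tendsto (fun x : ℕ => ((hs C x / Real.log x : ℝ) : ℂ)) atTop (𝓝 (d : ℂ)) := by
    have h4 := h1.add h2
    rw [add_zero] at h4
    refine h4.congr fun x => ?_
    push_cast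
    rw [← add_div]
    congr 1
    ring
  exact (Complex.continuous_re.tendsto _).comp h3

end Pool.Agent.H10.WC
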